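import Pool.Agent.J4H96.WP.Samp

/-!
Differencing for sequences all of whose differences are small.
-/

set_option autoImplicit false

namespace Pool.Agent.J4H96.WP

open Finset Polynomial

/-- the coefficients of a polynomial of degree less than `r` are bounded by its values -/
theorem coeff_bound (r : ℕ) : ∃ B : ℝ, 0 ≤ B ∧ ∀ Q : ℝ[X], Q.natDegree < r → ∀ A : ℝ,
    (∀ i < r, |Q.eval (i : ℝ)| ≤ A) → ∀ m, |Q.coeff m| ≤ B * A := by
  classical
  refine ⟨∑ m ∈ range r, ∑ i ∈ range r, |(Lagrange.basis (range r) (fun i : ℕ => (i : ℝ)) i).coeff m|,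
    Finset.sum_nonneg fun _ _ => Finset.sum_nonneg fun _ _ => abs_nonneg _, fun Q hQ A hA m => ?_⟩
  have hA0 : 0 ≤ A := (abs_nonneg _).trans (hA 0 (by omega))
  have hinj : Set.InjOn (fun i : ℕ => (i : ℝ)) (range r : Finset ℕ) :=
    fun i _ j _ hij => by simpa using hij
  have hdeg : Q.degree < ((range r).card : ℕ) := by
    rw [card_range]
    exact lt_of_le_of_lt Q.degree_le_natDegree (by exact_mod_cast hQ)
  have hint := Lagrange.eq_interpolate hinj hdeg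
  rcases le_or_gt r m with hm | hm
  · rw [Polynomial.coeff_eq_zero_of_natDegree_lt (by omega), abs_zero]
    exact mul_nonneg (Finset.sum_nonneg fun _ _ => Finset.sum_nonneg fun _ _ => abs_nonneg _) hA0
  · have hc : Q.coeff m = ∑ i ∈ range r, Q.eval (i : ℝ) *
        (Lagrange.basis (range r) (fun i : ℕ => (i : ℝ)) i).coeff m := by
      conv_lhs => rw [hint]
      rw [Lagrange.interpolate_apply, Polynomial.finsetSum_coeff]
      refine Finset.sum_congr rfl fun i _ => ?_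
      rw [Polynomial.coeff_C_mul]
    rw [hc]
    calc |∑ i ∈ range r, Q.eval (i : ℝ) *
          (Lagrange.basis (range r) (fun i : ℕ => (i : ℝ)) i).coeff m|
        ≤ ∑ i ∈ range r, |Q.eval (i : ℝ) *
          (Lagrange.basis (range r) (fun i : ℕ => (i : ℝ)) i).coeff m| :=
          Finset.abs_sum_le_sum_abs _ _
      _ ≤ ∑ i ∈ range r, |(Lagrange.basis (range r) (fun i : ℕ => (i : ℝ)) i).coeff m| * A := by
          refine Finset.sum_le_sum fun i hi => ?_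
          rw [abs_mul, mul_comm]
          exact mul_le_mul_of_nonneg_left (hA i (Finset.mem_range.1 hi)) (abs_nonneg _)
      _ = (∑ i ∈ range r, |(Lagrange.basis (range r) (fun i : ℕ => (i : ℝ)) i).coeff m|) * A := by
          rw [Finset.sum_mul]
      _ ≤ _ := by
          apply mul_le_mul_of_nonneg_right _ hA0
          exact Finset.single_le_sum (f := fun m => ∑ i ∈ range r,
            |(Lagrange.basis (range r) (fun i : ℕ => (i : ℝ)) i).coeff m|)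
            (fun _ _ => Finset.sum_nonneg fun _ _ => abs_nonneg _) (Finset.mem_range.2 hm)

theorem dif_shift (j : ℕ) (g : ℕ → ℝ) (n i : ℕ) :
    dif j g (n + i) = dif j (fun k => g (n + k)) i := by
  induction j generalizing i with
  | zero => rfl
  | succ j ih =>
    show dif j g (n + i + 1) - dif j g (n + i) = _
    rw [show n + i + 1 = n + (i + 1) by ring, ih, ih]
    rfl

theorem dif_pow_zero {m j : ℕ} (h : m < j) : dif j (fun k => (k : ℝ) ^ m) 0 = 0 := by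
  have h1 := fwdDiff_iter_pow_eq_zero_of_lt (R := ℝ) h
  have h2 : ∀ (q : ℕ) (f : ℝ → ℝ) (i : ℕ), dif q (fun k => f (k : ℝ)) i = ((fwdDiff 1)^[q] f) (i : ℝ) := by
    intro q
    induction q with
    | zero => intro f i; rfl
    | succ q ih =>
      intro f i
      show dif q (fun k => f (k : ℝ)) (i + 1) - dif q (fun k => f (k : ℝ)) i = _
      rw [ih, ih, Function.iterate_succ_apply']
      show _ = (fwdDiff 1)^[q] f ((i : ℝ) + 1) - (fwdDiff 1)^[q] f (i : ℝ)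
      push_cast
      rfl
  rw [h2 j (fun x => x ^ m) 0, h1]
  rfl

theorem diff_gain {g : ℕ → ℝ} (hg : Regular g) {K : ℝ} (hK : 0 ≤ K)
    (hgK : ∃ C : ℝ, ∀ n : ℕ, 2 ≤ n → |g n| ≤ C * (n : ℝ) ^ (-K)) (j : ℕ) {ε : ℝ} (hε : 0 < ε) :
    ∃ C : ℝ, 0 ≤ C ∧ ∀ n : ℕ, 2 ≤ n → |dif j g n| ≤ C * (n : ℝ) ^ (-K - j / 2 + ε) := by
  obtain ⟨C0, hC0⟩ := hgK
  obtain ⟨ε1, hε1⟩ : ∃ ε1 : ℝ, ε1 = min (1 / 4) (ε / (j + 1)) := ⟨_, rfl⟩
  have hj1 : (0 : ℝ) < (j : ℝ) + 1 := by positivity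
  have hε1pos : 0 < ε1 := by rw [hε1]; positivity
  have hε1a : ε1 ≤ 1 / 4 := by rw [hε1]; exact min_le_left _ _
  have hε1b : ε1 * j ≤ ε := by
    have h1 : ε1 ≤ ε / (j + 1) := by rw [hε1]; exact min_le_right _ _
    rw [le_div_iff₀ hj1] at h1
    nlinarith
  have hjR : (0 : ℝ) ≤ j := Nat.cast_nonneg j
  obtain ⟨r0, hr01, hr0⟩ := local_poly hg (ε := ε1) hε1pos (by linarith) (K := K + j / 2)
    (by linarith)
  obtain ⟨r, hr⟩ : ∃ r : ℕ, r = max r0 (j + 1) := ⟨_, rfl⟩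
  have hrr0 : r0 ≤ r := by rw [hr]; exact le_max_left _ _
  have hrj : j + 1 ≤ r := by rw [hr]; exact le_max_right _ _
  obtain ⟨C1, hC1, hloc⟩ := hr0 r hrr0
  have hrR : (1 : ℝ) ≤ r := by exact_mod_cast (by omega : 1 ≤ r)
  obtain ⟨B, hB, hcoef⟩ := coeff_bound r
  obtain ⟨n1, hn1⟩ := large_pow (a := 1 / 4) (by norm_num) (r : ℝ)
  obtain ⟨D, hD⟩ : ∃ D : ℝ, D = ∑ m ∈ range r, |dif j (fun k => (k : ℝ) ^ m) 0| := ⟨_, rfl⟩
  have hD0 : 0 ≤ D := by rw [hD]; exact Finset.sum_nonneg fun _ _ => abs_nonneg _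
  apply all_of_large (b := fun n : ℕ => (n : ℝ) ^ (-K - j / 2 + ε))
    (fun n hn => Real.rpow_pos_of_pos (by have := two_le_real hn; linarith) _)
  refine ⟨2 ^ j * C1 + B * (|C0| + C1) * D * (2 * r) ^ j, n1, fun n hn hn2 => ?_⟩
  have hn' := two_le_real hn2
  have hnpos : (0 : ℝ) < n := by linarith
  have hbig := hn1 n hn
  obtain ⟨M, hM⟩ : ∃ M : ℝ, M = (n : ℝ) ^ (1 / 2 - ε1) := ⟨_, rfl⟩
  have hMr : (r : ℝ) ≤ M := by
    refine hbig.trans ?_
    rw [hM]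
    exact Real.rpow_le_rpow_of_exponent_le (by linarith) (by linarith)
  have hMpos : 0 < M := by linarith
  have hx1 : 1 ≤ M / r := by rw [le_div_iff₀ (by linarith)]; linarith
  obtain ⟨q, hq⟩ : ∃ q : ℕ, q = ⌊M / r⌋₊ := ⟨_, rfl⟩
  have hq1 : 1 ≤ q := by
    rw [hq]
    exact Nat.le_floor (by exact_mod_cast hx1)
  have hqR : (1 : ℝ) ≤ q := by exact_mod_cast hq1
  have hqM : (q : ℝ) ≤ M / r := by
    rw [hq]; exact Nat.floor_le (by linarith)
  have hq2 : M / (2 * r) ≤ q := by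
    have h1 := Nat.lt_floor_add_one (M / r)
    rw [← hq] at h1
    have h2 : M / (2 * r) = (M / r) / 2 := by field_simp
    rw [h2]
    linarith
  obtain ⟨P, hP⟩ : ∃ P, P = newt r g n := ⟨_, rfl⟩
  have hPd : P.natDegree < r := by rw [hP]; exact newt_degree r (by omega) g n
  have hlocn := hloc n hn2
  rw [← hM, ← hP] at hlocn
  have hKn : 0 < (n : ℝ) ^ (-K) := Real.rpow_pos_of_pos hnpos _
  have hK2 : (n : ℝ) ^ (-(K + j / 2)) ≤ (n : ℝ) ^ (-K) :=
    Real.rpow_le_rpow_of_exponent_le (by linarith) (by linarith)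
  have hK3 : (n : ℝ) ^ (-(K + j / 2)) ≤ (n : ℝ) ^ (-K - j / 2 + ε) :=
    Real.rpow_le_rpow_of_exponent_le (by linarith) (by linarith)
  -- the rescaled polynomial
  obtain ⟨Q, hQ⟩ : ∃ Q : ℝ[X], Q = P.comp (C (q : ℝ) * X) := ⟨_, rfl⟩
  have hQev : ∀ x : ℝ, Q.eval x = P.eval (q * x) := by
    intro x
    rw [hQ, Polynomial.eval_comp]
    simp
  have hQd : Q.natDegree < r := by
    rw [hQ]
    refine lt_of_le_of_lt (Polynomial.natDegree_comp_le) ?_
    have h1 : (C (q : ℝ) * X : ℝ[X]).natDegree ≤ 1 :=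
      (Polynomial.natDegree_C_mul_le _ _).trans Polynomial.natDegree_X_le
    calc P.natDegree * (C (q : ℝ) * X : ℝ[X]).natDegree ≤ P.natDegree * 1 :=
          Nat.mul_le_mul_left _ h1
      _ < r := by omega
  have hQA : ∀ i < r, |Q.eval (i : ℝ)| ≤ (|C0| + C1) * (n : ℝ) ^ (-K) := by
    intro i hi
    have hiR : (i : ℝ) ≤ r := by exact_mod_cast hi.le
    have hqi : ((q * i : ℕ) : ℝ) ≤ M := by
      push_cast
      calc (q : ℝ) * i ≤ (M / r) * r := mul_le_mul hqM hiR (Nat.cast_nonneg i) (by linarith)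
        _ = M := by field_simp
    have h5 := hlocn (q * i) hqi
    have h6 := hC0 (n + q * i) (by omega)
    have h7 : C0 * ((n + q * i : ℕ) : ℝ) ^ (-K) ≤ |C0| * (n : ℝ) ^ (-K) :=
      mul_le_mul (le_abs_self _) (rpow_neg_le hn2 (by omega) hK)
        (Real.rpow_nonneg (Nat.cast_nonneg _) _) (abs_nonneg _)
    rw [hQev, show (q : ℝ) * (i : ℝ) = ((q * i : ℕ) : ℝ) by push_cast; ring]
    have h8 : |P.eval ((q * i : ℕ) : ℝ)| ≤ |g (n + q * i)| +
        |g (n + q * i) - P.eval ((q * i : ℕ) : ℝ)| := by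
      have h11 : P.eval ((q * i : ℕ) : ℝ) = g (n + q * i) -
        (g (n + q * i) - P.eval ((q * i : ℕ) : ℝ)) := by ring
      calc |P.eval ((q * i : ℕ) : ℝ)| = |g (n + q * i) -
          (g (n + q * i) - P.eval ((q * i : ℕ) : ℝ))| := by rw [← h11]
        _ ≤ _ := abs_sub _ _
    have h9 : C1 * (n : ℝ) ^ (-(K + j / 2)) ≤ C1 * (n : ℝ) ^ (-K) :=
      mul_le_mul_of_nonneg_left hK2 hC1
    rw [add_mul]
    linarith
  have hc := hcoef Q hQd _ hQA
  -- the values of `P`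
  have hPval : ∀ k : ℕ, P.eval (k : ℝ) = ∑ m ∈ range r, (Q.coeff m / (q : ℝ) ^ m) * (k : ℝ) ^ m := by
    intro k
    have hq0 : (q : ℝ) ≠ 0 := by linarith
    have h1 : P.eval (k : ℝ) = Q.eval ((k : ℝ) / q) := by
      rw [hQev]; congr 1; field_simp
    rw [h1, Polynomial.eval_eq_sum_range' hQd]
    refine Finset.sum_congr rfl fun m _ => ?_
    rw [div_pow]; ring
  have hdP : |dif j (fun k => P.eval (k : ℝ)) 0| ≤
      B * ((|C0| + C1) * (n : ℝ) ^ (-K)) * D * ((q : ℝ) ^ j)⁻¹ := by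
    have e : (fun k : ℕ => P.eval (k : ℝ)) = fun k : ℕ => ∑ m ∈ range r,
        (Q.coeff m / (q : ℝ) ^ m) * (k : ℝ) ^ m := funext hPval
    rw [e, dif_sum (range r) j (fun m (k : ℕ) => (Q.coeff m / (q : ℝ) ^ m) * (k : ℝ) ^ m) 0]
    refine (Finset.abs_sum_le_sum_abs _ _).trans ?_
    rw [hD, Finset.mul_sum, Finset.sum_mul]
    refine Finset.sum_le_sum fun m _ => ?_
    rw [dif_mul j (Q.coeff m / (q : ℝ) ^ m) (fun k => (k : ℝ) ^ m) 0]
    rcases lt_or_ge m j with hmj | hmj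
    · rw [dif_pow_zero hmj, mul_zero, abs_zero]
      simp
    · rw [abs_mul, abs_div, abs_of_nonneg (by positivity : (0 : ℝ) ≤ (q : ℝ) ^ m)]
      have h3 : |Q.coeff m| / (q : ℝ) ^ m ≤
          B * ((|C0| + C1) * (n : ℝ) ^ (-K)) * ((q : ℝ) ^ j)⁻¹ := by
        rw [← div_eq_mul_inv]
        exact div_le_div₀ (by positivity) (hc m) (by positivity) (pow_le_pow_right₀ hqR hmj)
      calc |Q.coeff m| / (q : ℝ) ^ m * |dif j (fun k => (k : ℝ) ^ m) 0|
          ≤ B * ((|C0| + C1) * (n : ℝ) ^ (-K)) * ((q : ℝ) ^ j)⁻¹ *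
            |dif j (fun k => (k : ℝ) ^ m) 0| := mul_le_mul_of_nonneg_right h3 (abs_nonneg _)
        _ = _ := by ring
  have hqj : ((q : ℝ) ^ j)⁻¹ ≤ (2 * r) ^ j * (n : ℝ) ^ (-(j : ℝ) / 2 + ε) := by
    have h1 : (M / (2 * r)) ^ j ≤ (q : ℝ) ^ j := pow_le_pow_left₀ (by positivity) hq2 j
    have h2 : ((q : ℝ) ^ j)⁻¹ ≤ ((M / (2 * r)) ^ j)⁻¹ := inv_anti₀ (by positivity) h1
    refine h2.trans ?_
    rw [← inv_pow, inv_div, div_pow, div_eq_mul_inv]
    apply mul_le_mul_of_nonneg_left _ (by positivity)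
    rw [hM, ← Real.rpow_mul_natCast hnpos.le, ← Real.rpow_neg hnpos.le]
    exact Real.rpow_le_rpow_of_exponent_le (by linarith) (by linarith)
  -- conclusion
  have h0 := dif_shift j g n 0
  rw [add_zero] at h0
  rw [h0]
  have hM1 : ∀ i ≤ j, ((i : ℕ) : ℝ) ≤ M := by
    intro i hi
    have : (i : ℝ) ≤ r := by exact_mod_cast (by omega : i ≤ r)
    linarith
  have herr : |dif j (fun k => g (n + k) - P.eval (k : ℝ)) 0| ≤
      2 ^ j * (C1 * (n : ℝ) ^ (-(K + j / 2))) := dif_le j _ 0 _ (fun i hi => by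
    rw [zero_add]
    exact hlocn i (hM1 i hi))
  rw [dif_sub] at herr
  have h10 : |dif j (fun k => g (n + k)) 0| ≤ |dif j (fun k => g (n + k)) 0 -
      dif j (fun k => P.eval (k : ℝ)) 0| + |dif j (fun k => P.eval (k : ℝ)) 0| := by
    have h11 : dif j (fun k => g (n + k)) 0 = (dif j (fun k => g (n + k)) 0 -
      dif j (fun k => P.eval (k : ℝ)) 0) + dif j (fun k => P.eval (k : ℝ)) 0 := by ring
    calc |dif j (fun k => g (n + k)) 0| = |(dif j (fun k => g (n + k)) 0 -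
      dif j (fun k => P.eval (k : ℝ)) 0) + dif j (fun k => P.eval (k : ℝ)) 0| := by rw [← h11]
      _ ≤ _ := abs_add_le _ _
  have h12 : B * ((|C0| + C1) * (n : ℝ) ^ (-K)) * D * ((q : ℝ) ^ j)⁻¹ ≤
      B * (|C0| + C1) * D * (2 * r) ^ j * (n : ℝ) ^ (-K - j / 2 + ε) := by
    calc B * ((|C0| + C1) * (n : ℝ) ^ (-K)) * D * ((q : ℝ) ^ j)⁻¹
        ≤ B * ((|C0| + C1) * (n : ℝ) ^ (-K)) * D *
          ((2 * r) ^ j * (n : ℝ) ^ (-(j : ℝ) / 2 + ε)) :=
          mul_le_mul_of_nonneg_left hqj (by positivity)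
      _ = B * (|C0| + C1) * D * (2 * r) ^ j *
          ((n : ℝ) ^ (-K) * (n : ℝ) ^ (-(j : ℝ) / 2 + ε)) := by ring
      _ = _ := by
          rw [← Real.rpow_add hnpos]
          congr 2
          ring
  have h13 : 2 ^ j * (C1 * (n : ℝ) ^ (-(K + j / 2))) ≤ 2 ^ j * C1 * (n : ℝ) ^ (-K - j / 2 + ε) := by
    rw [mul_assoc]
    exact mul_le_mul_of_nonneg_left (mul_le_mul_of_nonneg_left hK3 hC1) (by positivity)
  rw [add_mul]
  linarith

end Pool.Agent.J4H96.WP
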