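import Mathlib

/-!
Sequences all of whose differences are small: local polynomials.
-/

set_option autoImplicit false

namespace Pool.Agent.J4H96.WP

open Finset Polynomial

/-- the iterated forward differences of a sequence: `dif 0 f = f`,
`dif (r + 1) f n = dif r f (n + 1) - dif r f n` -/
def dif : ℕ → (ℕ → ℝ) → ℕ → ℝ
  | 0, f => f
  | r + 1, f => fun n => dif r f (n + 1) - dif r f n

theorem dif_succ' (r : ℕ) (f : ℕ → ℝ) : dif (r + 1) f = dif r (fun n => f (n + 1) - f n) := by
  induction r with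
  | zero => rfl
  | succ r ih =>
    funext n
    show dif (r + 1) f (n + 1) - dif (r + 1) f n = _
    rw [ih]
    rfl

theorem dif_sub (r : ℕ) (f g : ℕ → ℝ) (n : ℕ) :
    dif r (fun m => f m - g m) n = dif r f n - dif r g n := by
  induction r generalizing n with
  | zero => rfl
  | succ r ih =>
    show dif r _ (n + 1) - dif r _ n = (dif r f (n + 1) - dif r f n) - (dif r g (n + 1) - dif r g n)
    rw [ih, ih]; ring

theorem dif_mul (r : ℕ) (c : ℝ) (f : ℕ → ℝ) (n : ℕ) :
    dif r (fun m => c * f m) n = c * dif r f n := by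
  induction r generalizing n with
  | zero => rfl
  | succ r ih =>
    show dif r _ (n + 1) - dif r _ n = c * (dif r f (n + 1) - dif r f n)
    rw [ih, ih]; ring

theorem dif_sum {ι : Type*} (s : Finset ι) (r : ℕ) (f : ι → ℕ → ℝ) (n : ℕ) :
    dif r (fun m => ∑ i ∈ s, f i m) n = ∑ i ∈ s, dif r (f i) n := by
  induction r generalizing n with
  | zero => rfl
  | succ r ih =>
    show dif r _ (n + 1) - dif r _ n = ∑ i ∈ s, (dif r (f i) (n + 1) - dif r (f i) n)
    rw [ih, ih, Finset.sum_sub_distrib]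

theorem dif_eq_fwd (r : ℕ) (f : ℕ → ℝ) : dif r f = (fwdDiff 1)^[r] f := by
  induction r with
  | zero => rfl
  | succ r ih =>
    rw [Function.iterate_succ_apply', ← ih]
    rfl

theorem dif_eq_sum (r : ℕ) (f : ℕ → ℝ) (n : ℕ) :
    |dif r f n| = |∑ i ∈ range (r + 1), (-1 : ℝ) ^ i * (r.choose i : ℝ) * f (n + i)| := by
  rw [dif_eq_fwd, fwdDiff_iter_eq_sum_shift]
  have h : ∑ k ∈ range (r + 1), ((-1 : ℤ) ^ (r - k) * (r.choose k : ℤ)) • f (n + k • 1) =
      (-1 : ℝ) ^ r * ∑ i ∈ range (r + 1), (-1 : ℝ) ^ i * (r.choose i : ℝ) * f (n + i) := by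
    rw [Finset.mul_sum]
    refine Finset.sum_congr rfl fun k hk => ?_
    have hk' : k ≤ r := Nat.lt_succ_iff.1 (Finset.mem_range.1 hk)
    have e : (-1 : ℝ) ^ (r - k) = (-1 : ℝ) ^ r * (-1 : ℝ) ^ k := by
      have h2 : (-1 : ℝ) ^ k * (-1 : ℝ) ^ k = 1 := by
        rw [← mul_pow]; simp
      have h1 : (-1 : ℝ) ^ r = (-1 : ℝ) ^ (r - k) * (-1 : ℝ) ^ k := by
        rw [← pow_add]; congr 1; omega
      rw [h1, mul_assoc, h2, mul_one]
    rw [zsmul_eq_mul]
    push_cast
    rw [e]
    simp only [smul_eq_mul, mul_one]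
    ring
  rw [h, abs_mul, abs_pow, abs_neg, abs_one, one_pow, one_mul]

/-- bound for a difference by the values -/
theorem dif_le (r : ℕ) (f : ℕ → ℝ) (n : ℕ) (A : ℝ) (h : ∀ i ≤ r, |f (n + i)| ≤ A) :
    |dif r f n| ≤ 2 ^ r * A := by
  induction r generalizing n with
  | zero => simpa [dif] using h 0 le_rfl
  | succ r ih =>
    have h1 := ih n (fun i hi => h i (by omega))
    have h2 := ih (n + 1) (fun i hi => by
      have := h (i + 1) (by omega)
      rwa [show n + (i + 1) = n + 1 + i by ring] at this)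
    calc |dif r f (n + 1) - dif r f n| ≤ |dif r f (n + 1)| + |dif r f n| := abs_sub _ _
      _ ≤ 2 ^ r * A + 2 ^ r * A := add_le_add h2 h1
      _ = 2 ^ (r + 1) * A := by ring

/-- Newton's formula with remainder -/
theorem newton (r : ℕ) (f : ℕ → ℝ) (n M : ℕ) (η : ℝ) (h : ∀ i, i ≤ M → |dif r f (n + i)| ≤ η) :
    ∀ k ≤ M, |f (n + k) - ∑ j ∈ range r, (k.choose j : ℝ) * dif j f n| ≤ (k.choose r : ℝ) * η := by
  induction r generalizing f with
  | zero =>
    intro k hk
    simpa [dif] using h k hk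
  | succ r ih =>
    have hg := ih (fun m => f (m + 1) - f m) (fun i hi => by
      rw [← dif_succ']; exact h i hi)
    intro k
    induction k with
    | zero =>
      intro _
      rw [Finset.sum_range_succ']
      simp [dif]
    | succ k ihk =>
      intro hk
      have h1 := ihk (by omega)
      have h2 := hg k (by omega)
      have e : f (n + (k + 1)) - ∑ j ∈ range (r + 1), ((k + 1).choose j : ℝ) * dif j f n =
          (f (n + k) - ∑ j ∈ range (r + 1), (k.choose j : ℝ) * dif j f n) +
          ((f (n + k + 1) - f (n + k)) - ∑ j ∈ range r, (k.choose j : ℝ) *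
            dif j (fun m => f (m + 1) - f m) n) := by
        rw [Finset.sum_range_succ', Finset.sum_range_succ' (fun j => (k.choose j : ℝ) * dif j f n)]
        have e2 : ∑ j ∈ range r, ((k + 1).choose (j + 1) : ℝ) * dif (j + 1) f n =
            ∑ j ∈ range r, (k.choose (j + 1) : ℝ) * dif (j + 1) f n +
            ∑ j ∈ range r, (k.choose j : ℝ) * dif j (fun m => f (m + 1) - f m) n := by
          rw [← Finset.sum_add_distrib]
          refine Finset.sum_congr rfl fun j _ => ?_
          rw [dif_succ', Nat.choose_succ_succ]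
          push_cast
          ring
        rw [e2, show n + (k + 1) = n + k + 1 by ring]
        simp only [Nat.choose_zero_right]
        ring
      rw [e]
      refine (abs_add_le _ _).trans ((add_le_add h1 h2).trans (le_of_eq ?_))
      rw [Nat.choose_succ_succ k r]
      push_cast
      ring

/-- Newton's polynomial -/
noncomputable def newt (r : ℕ) (f : ℕ → ℝ) (n : ℕ) : ℝ[X] :=
  ∑ j ∈ range r, C (dif j f n / (j.factorial : ℝ)) * descPochhammer ℝ j

theorem newt_degree (r : ℕ) (hr : 1 ≤ r) (f : ℕ → ℝ) (n : ℕ) : (newt r f n).natDegree < r := by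
  have h : (newt r f n).natDegree ≤ r - 1 := by
    refine Polynomial.natDegree_sum_le_of_forall_le _ _ fun j hj => ?_
    refine (Polynomial.natDegree_C_mul_le _ _).trans ?_
    rw [descPochhammer_natDegree]
    have := Finset.mem_range.1 hj
    omega
  omega

theorem newt_eval (r : ℕ) (f : ℕ → ℝ) (n k : ℕ) :
    (newt r f n).eval (k : ℝ) = ∑ j ∈ range r, (k.choose j : ℝ) * dif j f n := by
  unfold newt
  rw [Polynomial.eval_finset_sum]
  refine Finset.sum_congr rfl fun j _ => ?_
  rw [Polynomial.eval_mul, Polynomial.eval_C, descPochhammer_eval_eq_descFactorial]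
  have h := Nat.descFactorial_eq_factorial_mul_choose k j
  rw [h]
  have hj : ((j.factorial : ℕ) : ℝ) ≠ 0 := by exact_mod_cast Nat.factorial_ne_zero j
  push_cast
  field_simp

/-- a sequence whose `r`-th differences are `O((log n / √n) ^ r)` for every `r ≥ 1` -/
def Regular (f : ℕ → ℝ) : Prop :=
  ∀ r : ℕ, 1 ≤ r → ∃ K : ℝ, ∀ n : ℕ, 2 ≤ n → |dif r f n| ≤ K * (Real.log n / Real.sqrt n) ^ r

theorem Regular.sub {f g : ℕ → ℝ} (hf : Regular f) (hg : Regular g) :
    Regular (fun n => f n - g n) := by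
  intro r hr
  obtain ⟨K1, h1⟩ := hf r hr
  obtain ⟨K2, h2⟩ := hg r hr
  refine ⟨K1 + K2, fun n hn => ?_⟩
  rw [dif_sub, add_mul]
  exact (abs_sub _ _).trans (add_le_add (h1 n hn) (h2 n hn))

theorem Regular.const_mul {f : ℕ → ℝ} (hf : Regular f) (c : ℝ) : Regular (fun n => c * f n) := by
  intro r hr
  obtain ⟨K1, h1⟩ := hf r hr
  refine ⟨|c| * K1, fun n hn => ?_⟩
  rw [dif_mul, abs_mul, mul_assoc]
  exact mul_le_mul_of_nonneg_left (h1 n hn) (abs_nonneg _)

theorem dif_const (c : ℝ) (r : ℕ) (hr : 1 ≤ r) (n : ℕ) : dif r (fun _ => c) n = 0 := by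
  obtain ⟨q, rfl⟩ : ∃ q, r = q + 1 := ⟨r - 1, by omega⟩
  rw [dif_succ']
  clear hr
  induction q generalizing n with
  | zero => simp [dif]
  | succ q ih =>
    show dif q _ (n + 1) - dif q _ n = 0
    rw [ih, ih, sub_self]

theorem regular_const (c : ℝ) : Regular (fun _ => c) := by
  intro r hr
  refine ⟨0, fun n _ => ?_⟩
  rw [dif_const c r hr n]
  simp

theorem Regular.add {f g : ℕ → ℝ} (hf : Regular f) (hg : Regular g) :
    Regular (fun n => f n + g n) := by
  have h := hf.sub (hg.const_mul (-1))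
  refine (congrArg Regular ?_).mp h
  funext n
  ring

end Pool.Agent.J4H96.WP
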