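import Pool.Agent.J4H96.WP.Diff

/-!
Sequences all of whose differences are small: local polynomials, sampling.
-/

set_option autoImplicit false

namespace Pool.Agent.J4H96.WP

open Finset Polynomial

theorem two_le_real {n : ℕ} (hn : 2 ≤ n) : (2 : ℝ) ≤ n := by exact_mod_cast hn

theorem log_bound {ε : ℝ} (hε : 0 < ε) (hε2 : ε ≤ 1 / 2) {n m : ℕ} (hn : 2 ≤ n) (hnm : n ≤ m)
    (hm : m ≤ 2 * n) :
    0 ≤ Real.log m / Real.sqrt m ∧ Real.log m / Real.sqrt m ≤ (4 / ε) * (n : ℝ) ^ (ε / 2 - 1 / 2) := by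
  have hn' := two_le_real hn
  have hmR : (n : ℝ) ≤ m := by exact_mod_cast hnm
  have hmR2 : (m : ℝ) ≤ 2 * n := by exact_mod_cast hm
  have hn0 : (0 : ℝ) < n := by linarith
  have hm0 : (0 : ℝ) < m := by linarith
  have hlog : 0 ≤ Real.log m := Real.log_nonneg (by linarith)
  refine ⟨by positivity, ?_⟩
  have h1 : Real.log m ≤ (m : ℝ) ^ (ε / 2) / (ε / 2) :=
    Real.log_le_rpow_div hm0.le (by positivity)
  have h2 : (m : ℝ) ^ (ε / 2) ≤ (2 * n : ℝ) ^ (ε / 2) :=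
    Real.rpow_le_rpow hm0.le hmR2 (by positivity)
  have h3 : (2 * n : ℝ) ^ (ε / 2) = (2 : ℝ) ^ (ε / 2) * (n : ℝ) ^ (ε / 2) :=
    Real.mul_rpow (by norm_num) hn0.le
  have h4 : (2 : ℝ) ^ (ε / 2) ≤ 2 := by
    calc (2 : ℝ) ^ (ε / 2) ≤ (2 : ℝ) ^ (1 : ℝ) :=
          Real.rpow_le_rpow_of_exponent_le (by norm_num) (by linarith)
      _ = 2 := Real.rpow_one 2
  have h5 : 0 < (n : ℝ) ^ (ε / 2) := Real.rpow_pos_of_pos hn0 _
  have h6 : Real.log m ≤ (4 / ε) * (n : ℝ) ^ (ε / 2) := by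
    calc Real.log m ≤ (m : ℝ) ^ (ε / 2) / (ε / 2) := h1
      _ ≤ (2 * (n : ℝ) ^ (ε / 2)) / (ε / 2) := by
          apply div_le_div_of_nonneg_right _ (by positivity)
          rw [h3] at h2
          exact h2.trans (mul_le_mul_of_nonneg_right h4 h5.le)
      _ = (4 / ε) * (n : ℝ) ^ (ε / 2) := by field_simp; ring
  have h7 : Real.sqrt n ≤ Real.sqrt m := Real.sqrt_le_sqrt hmR
  have h8 : 0 < Real.sqrt n := Real.sqrt_pos.2 hn0
  calc Real.log m / Real.sqrt m ≤ Real.log m / Real.sqrt n :=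
        div_le_div_of_nonneg_left hlog h8 h7
    _ ≤ ((4 / ε) * (n : ℝ) ^ (ε / 2)) / Real.sqrt n := div_le_div_of_nonneg_right h6 h8.le
    _ = (4 / ε) * (n : ℝ) ^ (ε / 2 - 1 / 2) := by
        rw [Real.sqrt_eq_rpow, Real.rpow_sub hn0, mul_div_assoc]

/-- the window is shorter than `n` -/
theorem win_le {ε : ℝ} (hε : 0 < ε) {n k : ℕ} (hn : 2 ≤ n)
    (hk : (k : ℝ) ≤ (n : ℝ) ^ (1 / 2 - ε)) : k ≤ n := by
  have hn' := two_le_real hn
  have h : (n : ℝ) ^ (1 / 2 - ε) ≤ (n : ℝ) ^ (1 : ℝ) :=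
    Real.rpow_le_rpow_of_exponent_le (by linarith) (by linarith)
  rw [Real.rpow_one] at h
  exact_mod_cast hk.trans h

theorem local_poly {f : ℕ → ℝ} (hf : Regular f) {ε : ℝ} (hε : 0 < ε) (hε2 : ε ≤ 1 / 2) {K : ℝ}
    (hK : 0 ≤ K) : ∃ r0 : ℕ, 1 ≤ r0 ∧ ∀ r, r0 ≤ r → ∃ C : ℝ, 0 ≤ C ∧ ∀ n : ℕ, 2 ≤ n → ∀ k : ℕ,
      (k : ℝ) ≤ (n : ℝ) ^ (1 / 2 - ε) →
      |f (n + k) - (newt r f n).eval (k : ℝ)| ≤ C * (n : ℝ) ^ (-K) := by
  refine ⟨⌈2 * K / ε⌉₊ + 1, by omega, fun r hr => ?_⟩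
  have hr1 : 1 ≤ r := by omega
  have hrK : K ≤ ε / 2 * r := by
    have h1 : 2 * K / ε ≤ r := (Nat.le_ceil _).trans (by exact_mod_cast (by omega : ⌈2 * K / ε⌉₊ ≤ r))
    rw [div_le_iff₀ hε] at h1
    linarith
  obtain ⟨Kr, hKr⟩ := hf r hr1
  refine ⟨|Kr| * (4 / ε) ^ r, by positivity, fun n hn k hk => ?_⟩
  have hn' := two_le_real hn
  have hn0 : (0 : ℝ) < n := by linarith
  have hkn := win_le hε hn hk
  have hnew := newton r f n k (|Kr| * ((4 / ε) * (n : ℝ) ^ (ε / 2 - 1 / 2)) ^ r) (fun i hi => by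
    obtain ⟨h1, h2⟩ := log_bound (m := n + i) hε hε2 hn (by omega) (by omega)
    calc |dif r f (n + i)| ≤ Kr * (Real.log ((n + i : ℕ) : ℝ) / Real.sqrt ((n + i : ℕ) : ℝ)) ^ r :=
          hKr (n + i) (by omega)
      _ ≤ |Kr| * (Real.log ((n + i : ℕ) : ℝ) / Real.sqrt ((n + i : ℕ) : ℝ)) ^ r :=
          mul_le_mul_of_nonneg_right (le_abs_self _) (pow_nonneg h1 _)
      _ ≤ _ := mul_le_mul_of_nonneg_left (pow_le_pow_left₀ h1 h2 r) (abs_nonneg _)) k le_rfl
  rw [newt_eval]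
  refine hnew.trans ?_
  have hc : (k.choose r : ℝ) ≤ ((n : ℝ) ^ (1 / 2 - ε)) ^ r := by
    calc (k.choose r : ℝ) ≤ ((k ^ r : ℕ) : ℝ) := by exact_mod_cast Nat.choose_le_pow k r
      _ = (k : ℝ) ^ r := by push_cast; ring
      _ ≤ _ := pow_le_pow_left₀ (Nat.cast_nonneg k) hk r
  have hb : 0 ≤ |Kr| * ((4 / ε) * (n : ℝ) ^ (ε / 2 - 1 / 2)) ^ r := by positivity
  calc (k.choose r : ℝ) * (|Kr| * ((4 / ε) * (n : ℝ) ^ (ε / 2 - 1 / 2)) ^ r)
      ≤ ((n : ℝ) ^ (1 / 2 - ε)) ^ r * (|Kr| * ((4 / ε) * (n : ℝ) ^ (ε / 2 - 1 / 2)) ^ r) :=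
        mul_le_mul_of_nonneg_right hc hb
    _ = |Kr| * (4 / ε) ^ r * ((n : ℝ) ^ (1 / 2 - ε) * (n : ℝ) ^ (ε / 2 - 1 / 2)) ^ r := by
        rw [mul_pow, mul_pow]; ring
    _ = |Kr| * (4 / ε) ^ r * (n : ℝ) ^ (-(ε / 2 * r)) := by
        rw [← Real.rpow_add hn0, ← Real.rpow_mul_natCast hn0.le]
        congr 2
        ring
    _ ≤ |Kr| * (4 / ε) ^ r * (n : ℝ) ^ (-K) := by
        apply mul_le_mul_of_nonneg_left _ (by positivity)
        exact Real.rpow_le_rpow_of_exponent_le (by linarith) (by linarith)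

/-- a polynomial of degree less than `r` which is small at `r` separated points is small -/
theorem lagr {r : ℕ} {P : ℝ[X]} (hP : P.natDegree < r) (v : ℕ → ℝ) {M δ A x : ℝ} (hδ : 0 < δ)
    (hM : δ ≤ M) (hv : ∀ i < r, 0 ≤ v i ∧ v i ≤ M)
    (hsep : ∀ i < r, ∀ j < r, i ≠ j → δ ≤ |v i - v j|) (hA : ∀ i < r, |P.eval (v i)| ≤ A)
    (hx : 0 ≤ x ∧ x ≤ M) : |P.eval x| ≤ r * (M / δ) ^ r * A := by
  classical
  have hinj : Set.InjOn v (range r : Finset ℕ) := by
    intro i hi j hj hij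
    by_contra hne
    have h1 := hsep i (by simpa using hi) j (by simpa using hj) hne
    rw [hij, sub_self, abs_zero] at h1
    linarith
  have hdeg : P.degree < ((range r).card : ℕ) := by
    rw [card_range]
    exact lt_of_le_of_lt P.degree_le_natDegree (by exact_mod_cast hP)
  have hint := Lagrange.eq_interpolate hinj hdeg
  have hMδ : 1 ≤ M / δ := by rw [le_div_iff₀ hδ]; linarith
  have hA0 : 0 ≤ A := by
    have : 0 < r := by omega
    exact (abs_nonneg _).trans (hA 0 this)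
  have heval : P.eval x = ∑ i ∈ range r, P.eval (v i) * (Lagrange.basis (range r) v i).eval x := by
    conv_lhs => rw [hint]
    rw [Lagrange.interpolate_apply, Polynomial.eval_finsetSum]
    refine Finset.sum_congr rfl fun i _ => ?_
    rw [Polynomial.eval_mul, Polynomial.eval_C]
  rw [heval]
  refine (Finset.abs_sum_le_sum_abs _ _).trans ?_
  have hterm : ∀ i ∈ range r, |P.eval (v i) * (Lagrange.basis (range r) v i).eval x| ≤
      (M / δ) ^ r * A := by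
    intro i hi
    rw [abs_mul]
    have h1 : |(Lagrange.basis (range r) v i).eval x| ≤ (M / δ) ^ r := by
      unfold Lagrange.basis
      rw [Polynomial.eval_prod, Finset.abs_prod]
      have h2 : ∀ j ∈ (range r).erase i, |(Lagrange.basisDivisor (v i) (v j)).eval x| ≤ M / δ := by
        intro j hj
        have hj1 := Finset.mem_erase.1 hj
        have hj2 := hv j (Finset.mem_range.1 hj1.2)
        have hs := hsep i (Finset.mem_range.1 hi) j (Finset.mem_range.1 hj1.2) (Ne.symm hj1.1)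
        unfold Lagrange.basisDivisor
        rw [Polynomial.eval_mul, Polynomial.eval_C, Polynomial.eval_sub, Polynomial.eval_X,
          Polynomial.eval_C, abs_mul, abs_inv]
        have h3 : |x - v j| ≤ M := by
          rw [abs_le]
          constructor <;> linarith [hx.1, hx.2, hj2.1, hj2.2]
        calc |v i - v j|⁻¹ * |x - v j| ≤ δ⁻¹ * M :=
              mul_le_mul (inv_anti₀ hδ hs) h3 (abs_nonneg _) (by positivity)
          _ = M / δ := by rw [div_eq_inv_mul]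
      calc ∏ j ∈ (range r).erase i, |(Lagrange.basisDivisor (v i) (v j)).eval x|
          ≤ ∏ _j ∈ (range r).erase i, (M / δ) :=
            Finset.prod_le_prod (fun _ _ => abs_nonneg _) h2
        _ = (M / δ) ^ ((range r).erase i).card := by rw [Finset.prod_const]
        _ ≤ (M / δ) ^ r := by
            apply pow_le_pow_right₀ hMδ
            calc ((range r).erase i).card ≤ (range r).card := Finset.card_erase_le
              _ = r := card_range r
    rw [mul_comm]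
    exact mul_le_mul h1 (hA i (Finset.mem_range.1 hi)) (abs_nonneg _) (by positivity)
  calc ∑ i ∈ range r, |P.eval (v i) * (Lagrange.basis (range r) v i).eval x|
      ≤ ∑ _i ∈ range r, (M / δ) ^ r * A := Finset.sum_le_sum hterm
    _ = r * (M / δ) ^ r * A := by rw [Finset.sum_const, card_range, nsmul_eq_mul]; ring

/-- from large `n` to all `n ≥ 2` -/
theorem all_of_large {a b : ℕ → ℝ} (hb : ∀ n, 2 ≤ n → 0 < b n)
    (h : ∃ C : ℝ, ∃ n0 : ℕ, ∀ n, n0 ≤ n → 2 ≤ n → |a n| ≤ C * b n) :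
    ∃ C : ℝ, 0 ≤ C ∧ ∀ n, 2 ≤ n → |a n| ≤ C * b n := by
  obtain ⟨C, n0, h⟩ := h
  refine ⟨|C| + ∑ n ∈ range n0, |a n| / |b n|, by positivity, fun n hn => ?_⟩
  have hbn := hb n hn
  have hs : 0 ≤ ∑ n ∈ range n0, |a n| / |b n| := Finset.sum_nonneg fun _ _ => by positivity
  rcases le_or_gt n0 n with h1 | h1
  · calc |a n| ≤ C * b n := h n h1 hn
      _ ≤ (|C| + ∑ n ∈ range n0, |a n| / |b n|) * b n := by
          apply mul_le_mul_of_nonneg_right _ hbn.le
          linarith [le_abs_self C]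
  · have h2 : |a n| / |b n| ≤ ∑ n ∈ range n0, |a n| / |b n| :=
      Finset.single_le_sum (f := fun n => |a n| / |b n|) (fun _ _ => by positivity)
        (Finset.mem_range.2 h1)
    rw [abs_of_pos hbn, div_le_iff₀ hbn] at h2
    calc |a n| ≤ (∑ n ∈ range n0, |a n| / |b n|) * b n := h2
      _ ≤ _ := by
          apply mul_le_mul_of_nonneg_right _ hbn.le
          linarith [abs_nonneg C]

end Pool.Agent.J4H96.WP
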