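import Pool.Agent.J4H96.WP.Diff

/-!
The logarithm has small differences of every order.
-/

set_option autoImplicit false

namespace Pool.Agent.J4H96.WP

open Finset

/-- differences of a function of a real variable -/
noncomputable def dR : ℕ → (ℝ → ℝ) → ℝ → ℝ
  | 0, f => f
  | r + 1, f => fun x => dR r f (x + 1) - dR r f x

theorem dif_dR (f : ℝ → ℝ) : ∀ (r n : ℕ), dif r (fun k : ℕ => f k) n = dR r f n := by
  intro r
  induction r with
  | zero => intro n; rfl
  | succ r ih =>
    intro n
    change dif r (fun k : ℕ => f k) (n + 1) - dif r (fun k : ℕ => f k) n = dR r f (n + 1) - dR r f n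
    rw [ih, ih]
    push_cast
    rfl

theorem dR_inv (r : ℕ) : ∀ x : ℝ, 0 < x →
    dR r (fun y => y⁻¹) x = (-1) ^ r * (r.factorial : ℝ) / ∏ i ∈ range (r + 1), (x + i) := by
  induction r with
  | zero => intro x hx; simp [dR]
  | succ r ih =>
    intro x hx
    change dR r (fun y => y⁻¹) (x + 1) - dR r (fun y => y⁻¹) x = _
    rw [ih (x + 1) (by linarith), ih x hx]
    obtain ⟨Q, hQ⟩ : ∃ Q : ℝ, Q = ∏ i ∈ range r, (x + 1 + (i : ℝ)) := ⟨_, rfl⟩
    have hQpos : 0 < Q := by
      rw [hQ]
      exact Finset.prod_pos fun i _ => by positivity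
    have h1 : ∏ i ∈ range (r + 1), (x + 1 + (i : ℝ)) = Q * (x + 1 + r) := by
      rw [Finset.prod_range_succ, hQ]
    have h2 : ∏ i ∈ range (r + 1), (x + (i : ℝ)) = Q * x := by
      rw [Finset.prod_range_succ', hQ]
      congr 1
      · refine Finset.prod_congr rfl fun i _ => ?_
        push_cast; ring
      · push_cast; ring
    have h3 : ∏ i ∈ range (r + 1 + 1), (x + (i : ℝ)) = Q * (x + 1 + r) * x := by
      rw [Finset.prod_range_succ']
      congr 1
      · rw [← h1]
        refine Finset.prod_congr rfl fun i _ => ?_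
        push_cast; ring
      · push_cast; ring
    rw [h1, h2, h3, Nat.factorial_succ]
    have h4 : 0 < x + 1 + r := by positivity
    push_cast
    field_simp
    ring

theorem dR_deriv (r : ℕ) : ∀ x : ℝ, 0 < x →
    HasDerivAt (dR r Real.log) (dR r (fun y => y⁻¹) x) x := by
  induction r with
  | zero => intro x hx; exact Real.hasDerivAt_log hx.ne'
  | succ r ih =>
    intro x hx
    have h1 : HasDerivAt (fun y => dR r Real.log (y + 1)) (dR r (fun y => y⁻¹) (x + 1)) x :=
      HasDerivAt.comp_add_const x 1 (ih (x + 1) (by linarith))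
    exact h1.sub (ih x hx)

theorem dR_log_bound (r : ℕ) {x : ℝ} (hx : 0 < x) :
    |dR (r + 1) Real.log x| ≤ (r.factorial : ℝ) / x ^ (r + 1) := by
  obtain ⟨c, hc, hceq⟩ := exists_hasDerivAt_eq_slope (dR r Real.log) (dR r (fun y => y⁻¹))
    (show x < x + 1 by linarith)
    (fun y hy => ((dR_deriv r y (lt_of_lt_of_le hx hy.1)).continuousAt).continuousWithinAt)
    (fun y hy => dR_deriv r y (lt_trans hx hy.1))
  have h1 : dR (r + 1) Real.log x = dR r (fun y => y⁻¹) c := by
    rw [hceq]
    change dR r Real.log (x + 1) - dR r Real.log x = _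
    rw [add_sub_cancel_left, div_one]
  have hc0 : 0 < c := lt_trans hx hc.1
  rw [h1, dR_inv r c hc0, abs_div, abs_mul, abs_pow, abs_neg, abs_one, one_pow, one_mul,
    Nat.abs_cast]
  have h2 : x ^ (r + 1) ≤ ∏ i ∈ range (r + 1), (c + (i : ℝ)) := by
    calc x ^ (r + 1) = ∏ _i ∈ range (r + 1), x := by rw [Finset.prod_const, card_range]
      _ ≤ _ := by
        apply Finset.prod_le_prod
        · intro i _; exact hx.le
        · intro i _
          have : (0 : ℝ) ≤ i := Nat.cast_nonneg i
          linarith [hc.1]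
  have h3 : 0 < ∏ i ∈ range (r + 1), (c + (i : ℝ)) := lt_of_lt_of_le (by positivity) h2
  rw [abs_of_pos h3]
  exact div_le_div_of_nonneg_left (by positivity) (by positivity) h2

theorem inv_le_log {n : ℕ} (hn : 2 ≤ n) : (1 : ℝ) / n ≤ 2 * (Real.log n / Real.sqrt n) := by
  have hn' : (2 : ℝ) ≤ n := by exact_mod_cast hn
  have hn0 : (0 : ℝ) < n := by linarith
  have h1 : Real.sqrt n ≤ n := by
    rw [Real.sqrt_le_left (by linarith)]
    nlinarith
  have h2 : 0 < Real.sqrt n := Real.sqrt_pos.2 hn0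
  have h3 : (1 : ℝ) / 2 ≤ Real.log n := by
    have h4 : Real.log 2 ≤ Real.log n := Real.log_le_log (by norm_num) hn'
    have h5 := Real.log_two_gt_d9
    linarith
  calc (1 : ℝ) / n ≤ 1 / Real.sqrt n := div_le_div_of_nonneg_left (by norm_num) h2 h1
    _ ≤ 2 * Real.log n / Real.sqrt n := div_le_div_of_nonneg_right (by linarith) h2.le
    _ = _ := by ring

theorem regular_log : Regular (fun n : ℕ => Real.log n) := by
  intro r hr
  obtain ⟨q, rfl⟩ : ∃ q, r = q + 1 := ⟨r - 1, by omega⟩
  refine ⟨(q.factorial : ℝ) * 2 ^ (q + 1), fun n hn => ?_⟩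
  have hn' : (2 : ℝ) ≤ n := by exact_mod_cast hn
  have hn0 : (0 : ℝ) < n := by linarith
  rw [dif_dR Real.log]
  refine (dR_log_bound q hn0).trans ?_
  calc (q.factorial : ℝ) / (n : ℝ) ^ (q + 1) = (q.factorial : ℝ) * (1 / n) ^ (q + 1) := by
        rw [one_div, inv_pow, div_eq_mul_inv]
    _ ≤ (q.factorial : ℝ) * (2 * (Real.log n / Real.sqrt n)) ^ (q + 1) :=
        mul_le_mul_of_nonneg_left (pow_le_pow_left₀ (by positivity) (inv_le_log hn) _)
          (by positivity)
    _ = _ := by rw [mul_pow]; ring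

end Pool.Agent.J4H96.WP
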