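import Pool.Agent.J4H96.WP.Local

/-!
Sequences all of whose differences are small are monotone between few cuts.
-/

set_option autoImplicit false

namespace Pool.Agent.J4H96.WP

open Finset Polynomial

theorem poly_mono {P : ℝ[X]} {a b : ℝ}
    (h : derivative P ≠ 0 → ∀ x, a < x → x ≤ b → (derivative P).eval x ≠ 0) :
    MonotoneOn (fun x => P.eval x) (Set.Icc a b) ∨ AntitoneOn (fun x => P.eval x) (Set.Icc a b) := by
  have hcont : Continuous fun x => P.eval x := P.continuous
  have hcont' : Continuous fun x => (derivative P).eval x := (derivative P).continuous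
  by_cases hP : derivative P = 0
  · left
    apply monotoneOn_of_deriv_nonneg (convex_Icc a b) hcont.continuousOn
      (P.differentiable.differentiableOn)
    intro x _
    rw [Polynomial.deriv, hP, Polynomial.eval_zero]
  · have h' := h hP
    by_cases hpos : ∀ x ∈ Set.Ioo a b, 0 ≤ (derivative P).eval x
    · left
      apply monotoneOn_of_deriv_nonneg (convex_Icc a b) hcont.continuousOn
        (P.differentiable.differentiableOn)
      intro x hx
      rw [interior_Icc] at hx
      rw [Polynomial.deriv]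
      exact hpos x hx
    · right
      push Not at hpos
      obtain ⟨x0, hx0, hneg⟩ := hpos
      apply antitoneOn_of_deriv_nonpos (convex_Icc a b) hcont.continuousOn
        (P.differentiable.differentiableOn)
      intro x hx
      rw [interior_Icc] at hx
      rw [Polynomial.deriv]
      by_contra hx2
      push Not at hx2
      have h1 := intermediate_value_uIcc (hcont'.continuousOn (s := Set.uIcc x0 x))
      have h2 : (0 : ℝ) ∈ Set.uIcc ((derivative P).eval x0) ((derivative P).eval x) :=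
        Set.mem_uIcc_of_le hneg.le hx2.le
      obtain ⟨y, hy, hy0⟩ := h1 h2
      have h3 : Set.uIcc x0 x ⊆ Set.Ioo a b := by
        have : (Set.Ioo a b).OrdConnected := Set.ordConnected_Ioo
        exact this.uIcc_subset hx0 hx
      have hy' := h3 hy
      exact h' y hy'.1 hy'.2.le hy0

theorem floor_half {y : ℝ} (hy : 1 ≤ y) : y ≤ 2 * (⌊y⌋₊ : ℝ) := by
  have h1 : y < ⌊y⌋₊ + 1 := Nat.lt_floor_add_one y
  have h2 : 1 ≤ ⌊y⌋₊ := (Nat.one_le_floor_iff y).2 hy
  have h3 : (1 : ℝ) ≤ (⌊y⌋₊ : ℝ) := by exact_mod_cast h2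
  linarith

theorem mono_pieces {g : ℕ → ℝ} (hg : Regular g) {ε : ℝ} (hε : 0 < ε) (hε2 : ε ≤ 1 / 2) {K : ℝ}
    (hK : 0 ≤ K) : ∃ C : ℝ, 0 ≤ C ∧ ∀ N : ℕ, 2 ≤ N → ∃ T : Finset ℕ,
      (T.card : ℝ) ≤ C * (N : ℝ) ^ (1 / 2 + ε) ∧
      ∀ a b : ℕ, N ≤ a → a ≤ b → b ≤ 2 * N → (∀ t ∈ T, ¬(a < t ∧ t ≤ b)) →
        (∀ i j : ℕ, a ≤ i → i ≤ j → j ≤ b → g i ≤ g j + C * (N : ℝ) ^ (-K)) ∨
        (∀ i j : ℕ, a ≤ i → i ≤ j → j ≤ b → g j ≤ g i + C * (N : ℝ) ^ (-K)) := by
  classical
  obtain ⟨r, hr1, hr⟩ := local_poly hg hε hε2 hK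
  obtain ⟨C1, hC1, hloc⟩ := hr r le_rfl
  refine ⟨2 * C1 + 3 * (r + 1), by positivity, fun N hN => ?_⟩
  have hN' := two_le_real hN
  have hN0 : (0 : ℝ) < N := by linarith
  obtain ⟨y, hy⟩ : ∃ y : ℝ, y = (N : ℝ) ^ (1 / 2 - ε) := ⟨_, rfl⟩
  have hy1 : 1 ≤ y := by rw [hy]; exact Real.one_le_rpow (by linarith) (by linarith)
  obtain ⟨m, hm⟩ : ∃ m : ℕ, m = ⌊y⌋₊ := ⟨_, rfl⟩
  have hm1 : 1 ≤ m := by rw [hm]; exact (Nat.one_le_floor_iff y).2 hy1
  have hmy : (m : ℝ) ≤ y := by rw [hm]; exact Nat.floor_le (by linarith)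
  have hym : y ≤ 2 * (m : ℝ) := by rw [hm]; exact floor_half hy1
  have hNK : 0 < (N : ℝ) ^ (-K) := Real.rpow_pos_of_pos hN0 _
  have hNe : 1 ≤ (N : ℝ) ^ (1 / 2 + ε) := Real.one_le_rpow (by linarith) (by linarith)
  let R : ℕ → Finset ℕ := fun n =>
    insert n (((derivative (newt r g n)).roots.toFinset).image (fun ρ => n + ⌈ρ⌉₊))
  let T : Finset ℕ := (range (N / m + 1)).biUnion (fun t => R (N + t * m))
  have hRcard : ∀ n, (R n).card ≤ r + 1 := by
    intro n
    refine (Finset.card_insert_le _ _).trans ?_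
    have h1 : (((derivative (newt r g n)).roots.toFinset).image (fun ρ => n + ⌈ρ⌉₊)).card ≤ r := by
      refine Finset.card_image_le.trans ?_
      refine (Multiset.toFinset_card_le _).trans ?_
      refine (Polynomial.card_roots' _).trans ?_
      refine (Polynomial.natDegree_derivative_le _).trans ?_
      have := newt_degree (r := r) (f := g) (n := n) hr1
      omega
    omega
  refine ⟨T, ?_, ?_⟩
  · have h1 : T.card ≤ (N / m + 1) * (r + 1) := by
      refine (Finset.card_biUnion_le).trans ?_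
      refine (Finset.sum_le_sum fun t _ => hRcard _).trans ?_
      rw [Finset.sum_const, card_range, smul_eq_mul]
    have h2 : ((N / m : ℕ) : ℝ) ≤ (N : ℝ) / m := Nat.cast_div_le
    have h3 : (N : ℝ) / m ≤ 2 * (N : ℝ) ^ (1 / 2 + ε) := by
      have hm0 : (0 : ℝ) < m := by exact_mod_cast hm1
      rw [div_le_iff₀ hm0]
      have h4 : (N : ℝ) = (N : ℝ) ^ (1 / 2 + ε) * y := by
        rw [hy, ← Real.rpow_add hN0]
        norm_num
      calc (N : ℝ) = (N : ℝ) ^ (1 / 2 + ε) * y := h4
        _ ≤ (N : ℝ) ^ (1 / 2 + ε) * (2 * m) := mul_le_mul_of_nonneg_left hym (by linarith)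
        _ = _ := by ring
    have h5 : (T.card : ℝ) ≤ (((N / m : ℕ) : ℝ) + 1) * (r + 1) := by exact_mod_cast h1
    calc (T.card : ℝ) ≤ (((N / m : ℕ) : ℝ) + 1) * (r + 1) := h5
      _ ≤ (3 * (N : ℝ) ^ (1 / 2 + ε)) * (r + 1) := by
          apply mul_le_mul_of_nonneg_right _ (by positivity)
          linarith
      _ ≤ (2 * C1 + 3 * (r + 1)) * (N : ℝ) ^ (1 / 2 + ε) := by
          have : 0 ≤ 2 * C1 * (N : ℝ) ^ (1 / 2 + ε) := by positivity
          nlinarith
  · intro a b hNa hab hb hT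
    obtain ⟨t, ht⟩ : ∃ t : ℕ, t = (a - N) / m := ⟨_, rfl⟩
    obtain ⟨n, hn⟩ : ∃ n : ℕ, n = N + t * m := ⟨_, rfl⟩
    have htm : t * m ≤ a - N := by rw [ht]; exact Nat.div_mul_le_self _ _
    have htm2 : a - N < (t + 1) * m := by
      rw [ht]
      exact Nat.lt_mul_of_div_lt (Nat.lt_succ_self _) (by omega)
    have htle : t ≤ N / m := by
      rw [Nat.le_div_iff_mul_le (by omega)]
      omega
    have hna : n ≤ a := by omega
    have hNn : N ≤ n := by rw [hn]; exact Nat.le_add_right _ _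
    have hn2 : 2 ≤ n := hN.trans hNn
    have hbn : b < n + m := by
      by_contra hcon
      push Not at hcon
      have h1 : t + 1 ≤ N / m := by
        rw [Nat.le_div_iff_mul_le (by omega)]
        have : (t + 1) * m = t * m + m := by ring
        omega
      have h2 : n + m ∈ T := by
        refine Finset.mem_biUnion.2 ⟨t + 1, Finset.mem_range.2 (by omega), ?_⟩
        have h3 : N + (t + 1) * m = n + m := by rw [hn]; ring
        rw [h3]
        exact Finset.mem_insert_self _ _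
      refine hT _ h2 ⟨?_, hcon⟩
      have : (t + 1) * m = t * m + m := by ring
      omega
    obtain ⟨P, hP⟩ : ∃ P : ℝ[X], P = newt r g n := ⟨_, rfl⟩
    have hmn : (m : ℝ) ≤ (n : ℝ) ^ (1 / 2 - ε) := by
      refine hmy.trans ?_
      rw [hy]
      exact Real.rpow_le_rpow hN0.le (by exact_mod_cast hNn) (by linarith)
    have hKn : (n : ℝ) ^ (-K) ≤ (N : ℝ) ^ (-K) :=
      Real.rpow_le_rpow_of_nonpos hN0 (by exact_mod_cast hNn) (by linarith)
    have happ : ∀ k : ℕ, n + k ≤ b → |g (n + k) - P.eval (k : ℝ)| ≤ C1 * (N : ℝ) ^ (-K) := by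
      intro k hk
      rw [hP]
      refine (hloc n hn2 k ?_).trans (mul_le_mul_of_nonneg_left hKn hC1)
      have : k ≤ m := by omega
      exact le_trans (by exact_mod_cast this) hmn
    have hroot : derivative P ≠ 0 → ∀ x : ℝ, ((a - n : ℕ) : ℝ) < x → x ≤ ((b - n : ℕ) : ℝ) →
        (derivative P).eval x ≠ 0 := by
      intro hP0 x hx1 hx2 hx0
      have h1 : n + ⌈x⌉₊ ∈ T := by
        refine Finset.mem_biUnion.2 ⟨t, Finset.mem_range.2 (by omega), ?_⟩
        rw [← hn]
        refine Finset.mem_insert_of_mem (Finset.mem_image.2 ⟨x, ?_, rfl⟩)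
        rw [Multiset.mem_toFinset, Polynomial.mem_roots (hP ▸ hP0)]
        rw [← hP]
        exact hx0
      refine hT _ h1 ⟨?_, ?_⟩
      · have h2 : a - n < ⌈x⌉₊ := Nat.lt_ceil.2 hx1
        omega
      · have h2 : ⌈x⌉₊ ≤ b - n := Nat.ceil_le.2 hx2
        omega
    have hC2 : 2 * (C1 * (N : ℝ) ^ (-K)) ≤ (2 * C1 + 3 * (r + 1)) * (N : ℝ) ^ (-K) := by
      have : 0 ≤ 3 * ((r : ℝ) + 1) * (N : ℝ) ^ (-K) := by positivity
      nlinarith
    rcases poly_mono hroot with hmon | hanti
    · left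
      intro i j hai hij hjb
      obtain ⟨i', rfl⟩ : ∃ i', i = n + i' := ⟨i - n, by omega⟩
      obtain ⟨j', rfl⟩ : ∃ j', j = n + j' := ⟨j - n, by omega⟩
      have h1 := abs_le.1 (happ i' (by omega))
      have h2 := abs_le.1 (happ j' (by omega))
      have h3 : P.eval (i' : ℝ) ≤ P.eval (j' : ℝ) := by
        apply hmon
        · constructor
          · exact_mod_cast (by omega : a - n ≤ i')
          · exact_mod_cast (by omega : i' ≤ b - n)
        · constructor
          · exact_mod_cast (by omega : a - n ≤ j')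
          · exact_mod_cast (by omega : j' ≤ b - n)
        · exact_mod_cast (by omega : i' ≤ j')
      linarith [h1.1, h1.2, h2.1, h2.2]
    · right
      intro i j hai hij hjb
      obtain ⟨i', rfl⟩ : ∃ i', i = n + i' := ⟨i - n, by omega⟩
      obtain ⟨j', rfl⟩ : ∃ j', j = n + j' := ⟨j - n, by omega⟩
      have h1 := abs_le.1 (happ i' (by omega))
      have h2 := abs_le.1 (happ j' (by omega))
      have h3 : P.eval (j' : ℝ) ≤ P.eval (i' : ℝ) := by
        apply hanti
        · constructor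
          · exact_mod_cast (by omega : a - n ≤ i')
          · exact_mod_cast (by omega : i' ≤ b - n)
        · constructor
          · exact_mod_cast (by omega : a - n ≤ j')
          · exact_mod_cast (by omega : j' ≤ b - n)
        · exact_mod_cast (by omega : i' ≤ j')
      linarith [h1.1, h1.2, h2.1, h2.2]

end Pool.Agent.J4H96.WP
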