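import Pool.Agent.J4H96.WP.Log

/-!
Negative powers have small differences of every order.
-/

set_option autoImplicit false

namespace Pool.Agent.J4H96.WP

open Finset

theorem dR_deriv_gen {f f' : ℝ → ℝ} (hf : ∀ x, 0 < x → HasDerivAt f (f' x) x) (r : ℕ) :
    ∀ x : ℝ, 0 < x → HasDerivAt (dR r f) (dR r f' x) x := by
  induction r with
  | zero => intro x hx; exact hf x hx
  | succ r ih =>
    intro x hx
    have h1 : HasDerivAt (fun y => dR r f (y + 1)) (dR r f' (x + 1)) x :=
      HasDerivAt.comp_add_const x 1 (ih (x + 1) (by linarith))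
    exact h1.sub (ih x hx)

theorem dR_const_mul (c : ℝ) (f : ℝ → ℝ) (r : ℕ) :
    ∀ x : ℝ, dR r (fun y => c * f y) x = c * dR r f x := by
  induction r with
  | zero => intro x; rfl
  | succ r ih =>
    intro x
    change dR r (fun y => c * f y) (x + 1) - dR r (fun y => c * f y) x =
      c * (dR r f (x + 1) - dR r f x)
    rw [ih, ih]
    ring

theorem dR_rpow_bound (r : ℕ) : ∀ b : ℝ, 0 ≤ b → ∃ M : ℝ, 0 ≤ M ∧ ∀ x : ℝ, 0 < x →
    |dR r (fun y => y ^ (-b)) x| ≤ M * x ^ (-b - r) := by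
  induction r with
  | zero =>
    intro b _
    refine ⟨1, by norm_num, fun x hx => ?_⟩
    change |x ^ (-b)| ≤ _
    rw [abs_of_pos (Real.rpow_pos_of_pos hx _)]
    simp
  | succ r ih =>
    intro b hb
    obtain ⟨M, hM, h⟩ := ih (b + 1) (by linarith)
    refine ⟨b * M, by positivity, fun x hx => ?_⟩
    have hd : ∀ y : ℝ, 0 < y → HasDerivAt (fun y : ℝ => y ^ (-b)) ((-b) * y ^ (-(b + 1))) y := by
      intro y hy
      have h1 := Real.hasDerivAt_rpow_const (x := y) (p := -b) (Or.inl hy.ne')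
      have h2 : -b - 1 = -(b + 1) := by ring
      rw [h2] at h1
      exact h1
    have hg := dR_deriv_gen hd r
    obtain ⟨c, hc, hceq⟩ := exists_hasDerivAt_eq_slope (dR r (fun y : ℝ => y ^ (-b)))
      (dR r (fun y : ℝ => (-b) * y ^ (-(b + 1))))
      (show x < x + 1 by linarith)
      (fun y hy => ((hg y (lt_of_lt_of_le hx hy.1)).continuousAt).continuousWithinAt)
      (fun y hy => hg y (lt_trans hx hy.1))
    have h1 : dR (r + 1) (fun y : ℝ => y ^ (-b)) x = dR r (fun y : ℝ => (-b) * y ^ (-(b + 1))) c := by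
      rw [hceq]
      change dR r (fun y : ℝ => y ^ (-b)) (x + 1) - dR r (fun y : ℝ => y ^ (-b)) x = _
      rw [add_sub_cancel_left, div_one]
    have hc0 : 0 < c := lt_trans hx hc.1
    rw [h1, dR_const_mul, abs_mul, abs_neg, abs_of_nonneg hb]
    calc b * |dR r (fun y : ℝ => y ^ (-(b + 1))) c| ≤ b * (M * c ^ (-(b + 1) - r)) :=
          mul_le_mul_of_nonneg_left (h c hc0) hb
      _ ≤ b * (M * x ^ (-(b + 1) - r)) := by
          apply mul_le_mul_of_nonneg_left _ hb
          apply mul_le_mul_of_nonneg_left _ hM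
          have hr0 : (0 : ℝ) ≤ r := Nat.cast_nonneg r
          exact Real.rpow_le_rpow_of_nonpos hx hc.1.le (by linarith)
      _ = b * M * x ^ (-b - ((r + 1 : ℕ) : ℝ)) := by
          push_cast
          rw [mul_assoc]
          congr 3
          ring

theorem regular_rpow {b : ℝ} (hb : 0 ≤ b) : Regular (fun n : ℕ => (n : ℝ) ^ (-b)) := by
  intro r hr
  obtain ⟨M, hM, h⟩ := dR_rpow_bound r b hb
  refine ⟨M * 2 ^ r, fun n hn => ?_⟩
  have hn' : (2 : ℝ) ≤ n := by exact_mod_cast hn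
  have hn0 : (0 : ℝ) < n := by linarith
  rw [dif_dR (fun y => y ^ (-b))]
  refine (h n hn0).trans ?_
  have h1 : (n : ℝ) ^ (-b - r) ≤ (1 / n) ^ r := by
    calc (n : ℝ) ^ (-b - r) ≤ (n : ℝ) ^ (-(r : ℝ)) :=
          Real.rpow_le_rpow_of_exponent_le (by linarith) (by linarith)
      _ = (1 / n) ^ r := by
          rw [Real.rpow_neg hn0.le, Real.rpow_natCast, one_div, inv_pow]
  calc M * (n : ℝ) ^ (-b - r) ≤ M * (1 / n) ^ r := mul_le_mul_of_nonneg_left h1 hM
    _ ≤ M * (2 * (Real.log n / Real.sqrt n)) ^ r :=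
        mul_le_mul_of_nonneg_left (pow_le_pow_left₀ (by positivity) (inv_le_log hn) _) hM
    _ = _ := by rw [mul_pow]; ring

end Pool.Agent.J4H96.WP
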