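import Pool.Agent.J4H96.WP.Local

/-!
Sampling and differencing for sequences all of whose differences are small.
-/

set_option autoImplicit false

namespace Pool.Agent.J4H96.WP

open Finset Polynomial

theorem large_pow {a : ℝ} (ha : 0 < a) (B : ℝ) : ∃ n1 : ℕ, ∀ n : ℕ, n1 ≤ n → B ≤ (n : ℝ) ^ a := by
  have h := (tendsto_rpow_atTop ha).comp (tendsto_natCast_atTop_atTop (R := ℝ))
  have h2 := h.eventually_ge_atTop B
  rw [Filter.eventually_atTop] at h2
  exact h2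

theorem rpow_neg_le {n s : ℕ} (hn : 2 ≤ n) (hs : n ≤ s) {K : ℝ} (hK : 0 ≤ K) :
    (s : ℝ) ^ (-K) ≤ (n : ℝ) ^ (-K) := by
  have hn' := two_le_real hn
  exact Real.rpow_le_rpow_of_nonpos (by linarith) (by exact_mod_cast hs) (by linarith)

theorem node_le {i r M : ℝ} (hr : 1 ≤ r) (hi : i + 1 ≤ r) (hM : 0 < M) :
    i * M / r + M / (2 * r) ≤ M := by
  have h1 : i * M / r + M / r ≤ M := by
    rw [← add_div, div_le_iff₀ (by linarith)]
    nlinarith
  have h2 : M / r = M / (2 * r) + M / (2 * r) := by field_simp; ring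
  have h3 : 0 < M / (2 * r) := by positivity
  linarith

theorem sampling {g : ℕ → ℝ} (hg : Regular g) {ε : ℝ} (hε : 0 < ε) (hε2 : ε ≤ 1 / 4) {K : ℝ}
    (hK : 0 ≤ K) {S : Set ℕ}
    (hS : ∃ n0 : ℕ, ∀ n : ℕ, n0 ≤ n → ∃ s ∈ S, n ≤ s ∧ (s : ℝ) ≤ n + (n : ℝ) ^ (1 / 2 - ε))
    (hgS : ∃ C : ℝ, ∀ s ∈ S, 2 ≤ s → |g s| ≤ C * (s : ℝ) ^ (-K)) :
    ∃ C : ℝ, 0 ≤ C ∧ ∀ n : ℕ, 2 ≤ n → |g n| ≤ C * (n : ℝ) ^ (-K) := by
  obtain ⟨n0, hS⟩ := hS
  obtain ⟨C0, hC0⟩ := hgS
  obtain ⟨r, hr1, hr⟩ := local_poly hg (ε := ε / 2) (by linarith) (by linarith) hK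
  obtain ⟨C1, hC1, hloc⟩ := hr r le_rfl
  have hrR : (1 : ℝ) ≤ r := by exact_mod_cast hr1
  obtain ⟨n1, hn1⟩ := large_pow (a := ε / 2) (by linarith) (16 * r)
  apply all_of_large (b := fun n : ℕ => (n : ℝ) ^ (-K))
    (fun n hn => Real.rpow_pos_of_pos (by have := two_le_real hn; linarith) _)
  refine ⟨C1 + r * (2 * r) ^ r * (|C0| + C1), max n0 n1, fun n hn hn2 => ?_⟩
  have hn' := two_le_real hn2
  have hnpos : (0 : ℝ) < n := by linarith
  have hnn0 : n0 ≤ n := (le_max_left _ _).trans hn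
  have hbig := hn1 n ((le_max_right _ _).trans hn)
  obtain ⟨M, hM⟩ : ∃ M : ℝ, M = (n : ℝ) ^ (1 / 2 - ε / 2) := ⟨_, rfl⟩
  have hM16 : 16 * r ≤ M := by
    refine hbig.trans ?_
    rw [hM]
    exact Real.rpow_le_rpow_of_exponent_le (by linarith) (by linarith)
  have hMpos : 0 < M := by linarith
  have hMn : M ≤ n := by
    rw [hM]
    calc (n : ℝ) ^ (1 / 2 - ε / 2) ≤ (n : ℝ) ^ (1 : ℝ) :=
          Real.rpow_le_rpow_of_exponent_le (by linarith) (by linarith)
      _ = n := Real.rpow_one _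
  have hsmall : 4 * (n : ℝ) ^ (1 / 2 - ε) ≤ M / (4 * r) := by
    rw [le_div_iff₀ (by linarith)]
    have e : M = (n : ℝ) ^ (1 / 2 - ε) * (n : ℝ) ^ (ε / 2) := by
      rw [hM, ← Real.rpow_add hnpos]; congr 1; ring
    rw [e]
    have h5 : 0 < (n : ℝ) ^ (1 / 2 - ε) := Real.rpow_pos_of_pos hnpos _
    calc 4 * (n : ℝ) ^ (1 / 2 - ε) * (4 * r) = (n : ℝ) ^ (1 / 2 - ε) * (16 * r) := by ring
      _ ≤ _ := mul_le_mul_of_nonneg_left hbig h5.le
  -- the nodes
  have hnode : ∀ i : ℕ, i < r → ∃ s ∈ S, n ≤ s ∧ (i : ℝ) * M / r ≤ (s : ℝ) - n ∧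
      (s : ℝ) - n ≤ (i : ℝ) * M / r + M / (2 * r) := by
    intro i hi
    have hiR : (i : ℝ) + 1 ≤ r := by exact_mod_cast hi
    obtain ⟨m, hm⟩ : ∃ m : ℕ, m = n + ⌈(i : ℝ) * M / r⌉₊ := ⟨_, rfl⟩
    have hx0 : 0 ≤ (i : ℝ) * M / r := by positivity
    have hc1 : (i : ℝ) * M / r ≤ (m : ℝ) - n := by
      rw [hm]; push_cast
      linarith [Nat.le_ceil ((i : ℝ) * M / r)]
    have hc2 : (m : ℝ) - n ≤ (i : ℝ) * M / r + 1 := by
      rw [hm]; push_cast
      linarith [Nat.ceil_lt_add_one hx0]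
    have hiM : (i : ℝ) * M / r ≤ M := by
      rw [div_le_iff₀ (by linarith)]
      nlinarith
    have hm4 : (m : ℝ) ≤ 4 * n := by linarith
    have hmn : n ≤ m := by omega
    obtain ⟨s, hsS, hs1, hs2⟩ := hS m (by omega)
    refine ⟨s, hsS, by omega, ?_, ?_⟩
    · have : (m : ℝ) ≤ s := by exact_mod_cast hs1
      linarith
    · have h6 : (m : ℝ) ^ (1 / 2 - ε) ≤ 4 * (n : ℝ) ^ (1 / 2 - ε) := by
        calc (m : ℝ) ^ (1 / 2 - ε) ≤ (4 * n : ℝ) ^ (1 / 2 - ε) :=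
              Real.rpow_le_rpow (Nat.cast_nonneg m) hm4 (by linarith)
          _ = (4 : ℝ) ^ (1 / 2 - ε) * (n : ℝ) ^ (1 / 2 - ε) :=
              Real.mul_rpow (by norm_num) hnpos.le
          _ ≤ 4 * (n : ℝ) ^ (1 / 2 - ε) := by
              apply mul_le_mul_of_nonneg_right _ (Real.rpow_nonneg hnpos.le _)
              calc (4 : ℝ) ^ (1 / 2 - ε) ≤ (4 : ℝ) ^ (1 : ℝ) :=
                    Real.rpow_le_rpow_of_exponent_le (by norm_num) (by linarith)
                _ = 4 := Real.rpow_one 4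
      have h7 : 1 ≤ M / (4 * r) := by
        rw [le_div_iff₀ (by linarith)]
        linarith
      have h8 : M / (2 * r) = M / (4 * r) + M / (4 * r) := by
        field_simp; ring
      rw [h8]
      linarith
  choose! s hs using hnode
  -- apply the interpolation
  obtain ⟨P, hP⟩ : ∃ P, P = newt r g n := ⟨_, rfl⟩
  have hPd : P.natDegree < r := by rw [hP]; exact newt_degree r hr1 g n
  have hδ : 0 < M / (2 * r) := by positivity
  have hδM : M / (2 * r) ≤ M := div_le_self hMpos.le (by linarith)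
  have hloc0 := hloc n hn2
  rw [← hM, ← hP] at hloc0
  have hKn : 0 < (n : ℝ) ^ (-K) := Real.rpow_pos_of_pos hnpos _
  have key := lagr (M := M) (δ := M / (2 * r)) (A := (|C0| + C1) * (n : ℝ) ^ (-K)) (x := 0) hPd
    (fun i => (s i : ℝ) - n) hδ hδM (fun i hi => by
      obtain ⟨-, h2, h3, h4⟩ := hs i hi
      have hiR : (i : ℝ) + 1 ≤ r := by exact_mod_cast hi
      have hn1 : (0 : ℝ) ≤ (i : ℝ) * M / r := by positivity
      exact ⟨by linarith, h4.trans (node_le hrR hiR hMpos)⟩) (by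
      have hlt : ∀ i < r, ∀ j < r, i < j → M / (2 * r) ≤ |((s i : ℝ) - n) - ((s j : ℝ) - n)| := by
        intro i hi j hj hij
        obtain ⟨-, -, -, h4⟩ := hs i hi
        obtain ⟨-, -, h3, -⟩ := hs j hj
        have hijR : (i : ℝ) + 1 ≤ j := by exact_mod_cast hij
        have h9 : (i : ℝ) * M / r + M / r ≤ (j : ℝ) * M / r := by
          rw [← add_div]
          apply div_le_div_of_nonneg_right _ (by linarith)
          nlinarith
        have h10 : M / r = M / (2 * r) + M / (2 * r) := by field_simp; ring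
        rw [abs_sub_comm]
        refine le_trans ?_ (le_abs_self _)
        linarith
      intro i hi j hj hne
      rcases lt_or_gt_of_ne hne with h | h
      · exact hlt i hi j hj h
      · rw [abs_sub_comm]; exact hlt j hj i hi h) (fun i hi => by
      obtain ⟨h1, h2, h3, h4⟩ := hs i hi
      have hiR : (i : ℝ) + 1 ≤ r := by exact_mod_cast hi
      obtain ⟨k, hk⟩ : ∃ k, s i = n + k := ⟨s i - n, by omega⟩
      have hkR : (s i : ℝ) - n = (k : ℝ) := by rw [hk]; push_cast; ring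
      have hkM : (k : ℝ) ≤ M := by
        rw [← hkR]
        exact h4.trans (node_le hrR hiR hMpos)
      have h5 := hloc0 k hkM
      have h6 := hC0 (s i) h1 (by omega)
      have h7 : C0 * ((s i : ℕ) : ℝ) ^ (-K) ≤ |C0| * (n : ℝ) ^ (-K) :=
        mul_le_mul (le_abs_self _) (rpow_neg_le hn2 h2 hK) (Real.rpow_nonneg (Nat.cast_nonneg _) _)
          (abs_nonneg _)
      rw [← hk] at h5
      show |P.eval ((s i : ℝ) - n)| ≤ _
      rw [hkR]
      have h8 : |P.eval (k : ℝ)| ≤ |g (s i)| + |g (s i) - P.eval (k : ℝ)| := by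
        have h11 : P.eval (k : ℝ) = g (s i) - (g (s i) - P.eval (k : ℝ)) := by ring
        calc |P.eval (k : ℝ)| = |g (s i) - (g (s i) - P.eval (k : ℝ))| := by rw [← h11]
          _ ≤ _ := abs_sub _ _
      rw [add_mul]
      linarith) ⟨le_rfl, hMpos.le⟩
  have h0 := hloc0 0 (by simpa using hMpos.le)
  rw [Nat.cast_zero, add_zero] at h0
  have hq : M / (M / (2 * r)) = 2 * r := by field_simp
  rw [hq] at key
  have h9 : |g n| ≤ |g n - P.eval 0| + |P.eval 0| := by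
    have h11 : g n = (g n - P.eval 0) + P.eval 0 := by ring
    calc |g n| = |(g n - P.eval 0) + P.eval 0| := by rw [← h11]
      _ ≤ _ := abs_add_le _ _
  calc |g n| ≤ C1 * (n : ℝ) ^ (-K) + r * (2 * r) ^ r * ((|C0| + C1) * (n : ℝ) ^ (-K)) :=
        h9.trans (add_le_add h0 key)
    _ = (C1 + r * (2 * r) ^ r * (|C0| + C1)) * (n : ℝ) ^ (-K) := by ring

end Pool.Agent.J4H96.WP
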